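import Mathlib

/-! Random conductance walk on an augmented Galton-Watson tree: one-step estimates. -/

namespace Pool.Agent.H.MP_8be476_pr

open MeasureTheory ProbabilityTheory Finset
open scoped ENNReal

def ch (a : List ℕ → ℕ) (v : List ℕ) : ℕ := if v = [] then a v + 1 else a v

def ce (c : ℕ → ℕ → ℝ) (a : List ℕ → ℕ) (v : List ℕ) : ℝ := c (a v.tail) (a v)

def tot (c : ℕ → ℕ → ℝ) (a : List ℕ → ℕ) (v : List ℕ) : ℝ :=
  (if v = [] then 0 else ce c a v) + ∑ i ∈ range (ch a v), ce c a (i :: v)

noncomputable def tp (c : ℕ → ℕ → ℝ) (a : List ℕ → ℕ) (x y : List ℕ) : ℝ :=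
  if x ≠ [] ∧ y = x.tail then ce c a x / tot c a x
  else if ∃ i < ch a x, y = i :: x then ce c a y / tot c a x else 0

lemma m_ce (c : ℕ → ℕ → ℝ) (v : List ℕ) : Measurable fun a => ce c a v :=
  (Measurable.of_discrete (f := fun z : ℕ × ℕ => c z.1 z.2)).comp
    (f := fun a : List ℕ → ℕ => (a v.tail, a v)) (by fun_prop)

lemma m_ch (v : List ℕ) : Measurable fun a => ch a v := by
  unfold ch; split_ifs <;> fun_prop

lemma m_tot (c : ℕ → ℕ → ℝ) (v : List ℕ) : Measurable fun a => tot c a v :=
  Measurable.add (by split_ifs; exacts [measurable_const, m_ce c v])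
    ((measurable_from_prod_countable_right
      (f := fun z : ℕ × (List ℕ → ℕ) => ∑ i ∈ range z.1, ce c z.2 (i :: v))
      fun k => Finset.measurable_sum (range k) fun i _ => m_ce c _).comp
      ((m_ch v).prodMk measurable_id))

lemma m_tp (c : ℕ → ℕ → ℝ) (x y : List ℕ) : Measurable fun a => tp c a x y := by
  unfold tp
  split_ifs
  · exact (m_ce c x).div (m_tot c x)
  · exact Measurable.ite (m_ch x (MeasurableSet.of_discrete (s := {k | ∃ i < k, y = i :: x})))
      ((m_ce c y).div (m_tot c x)) measurable_const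

lemma tp_dep (c : ℕ → ℕ → ℝ) {a a' : List ℕ → ℕ} (x y : List ℕ)
    (h : ∀ u : List ℕ, u.length ≤ x.length + 1 → a u = a' u) : tp c a x y = tp c a' x y := by
  have e1 : ch a x = ch a' x := by simp [ch, h x]
  have e2 : ce c a x = ce c a' x := by rw [ce, ce, h x (by simp), h x.tail (by simp; omega)]
  have e3 : ∀ i, ce c a (i :: x) = ce c a' (i :: x) := fun i => by
    rw [ce, ce, h (i :: x) (by simp), h (i :: x).tail (by simp)]
  have e4 : tot c a x = tot c a' x := by simp [tot, e1, e2, e3]
  unfold tp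
  rw [e1, e2, e4]
  split_ifs with h1 h2
  · rfl
  · obtain ⟨i, -, rfl⟩ := h2; rw [e3]
  · rfl

open Classical in
lemma tsum_tp (c : ℕ → ℕ → ℝ) (a : List ℕ → ℕ) (x : List ℕ) (C : Set (List ℕ)) :
    ∑' y, C.indicator (fun y => ENNReal.ofReal (tp c a x y)) y ≤
      (if x ≠ [] ∧ x.tail ∈ C then ENNReal.ofReal (ce c a x / tot c a x) else 0) +
      ∑ i ∈ range (ch a x), if i :: x ∈ C then ENNReal.ofReal (ce c a (i :: x) / tot c a x) else 0 := by
  calc _ ≤ ∑' y, ((if y = x.tail then
        (if x ≠ [] ∧ x.tail ∈ C then ENNReal.ofReal (ce c a x / tot c a x) else 0) else 0) +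
      ∑ i ∈ range (ch a x), if y = i :: x then
        (if i :: x ∈ C then ENNReal.ofReal (ce c a (i :: x) / tot c a x) else 0) else 0) :=
        ENNReal.tsum_le_tsum fun y => ?_
    _ = _ := by
      rw [ENNReal.tsum_add, tsum_ite_eq, Summable.tsum_finsetSum fun _ _ => ENNReal.summable]
      simp only [tsum_ite_eq]
  by_cases hy : y ∈ C
  · rw [Set.indicator_of_mem hy, tp]
    split_ifs with h1 h2 h3 h4 h5 h6 h7
    · exact le_self_add
    · exact absurd ⟨h1.1, h1.2 ▸ hy⟩ h3
    · exact absurd h1.2 h2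
    all_goals first
      | (obtain ⟨i, hi, rfl⟩ := h4
         refine le_add_left (le_trans (by simp [hy]) (single_le_sum (f := fun j => if i :: x = j :: x then
          (if j :: x ∈ C then ENNReal.ofReal (ce c a (j :: x) / tot c a x) else 0) else 0)
          (fun _ _ => zero_le) (mem_range.2 hi))))
      | simp
  · simp [hy]

noncomputable def cc (k m : ℕ) : ℝ := if k = 10000 ∧ m = 10000 then 1 else 1 / 100

lemma ce_ge (a v) : 1 / 100 ≤ ce cc a v := by unfold ce cc; split_ifs <;> norm_num
lemma ce_le (a v) : ce cc a v ≤ 1 := by unfold ce cc; split_ifs <;> norm_num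

lemma tot_low {a : List ℕ → ℕ} {x : List ℕ} (h : a x = 11) : tot cc a x = 12 / 100 := by
  by_cases e : x = [] <;> simp [tot, ch, ce, cc, e, h]
  · subst e; simp [h]; norm_num
  · norm_num

lemma tot_high {a : List ℕ → ℕ} {x : List ℕ} (h : a x = 10000) :
    ∑ i ∈ range 10000, ce cc a (i :: x) ≤ tot cc a x := by
  have : ∀ v, 0 ≤ ce cc a v := fun v => le_trans (by norm_num) (ce_ge a v)
  refine le_add_of_nonneg_of_le (by split_ifs; exacts [le_rfl, this _])
    (sum_le_sum_of_subset_of_nonneg (range_subset_range.2 ?_) fun _ _ _ => this _)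
  unfold ch; split_ifs <;> omega

def Lo (x : List ℕ) : Set (List ℕ → ℕ) := {a | a x = 11}

lemma b_up {a : List ℕ → ℕ} {x : List ℕ} (h : a x = 11 ∨ a x = 10000) :
    ∑' y, {y : List ℕ | y.length ≠ x.length + 1}.indicator (fun y => ENNReal.ofReal (tp cc a x y)) y ≤
      ENNReal.ofReal (1 / 100) + ENNReal.ofReal (1 / 12) * (Lo x).indicator 1 a := by
  refine (tsum_tp ..).trans ?_
  rw [sum_eq_zero fun i _ => by simp, add_zero]
  split_ifs with e
  · rcases h with h | h
    · rw [tot_low h, Set.indicator_of_mem (show a ∈ Lo x from h)]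
      refine le_add_left ?_
      simp only [ce, cc, h]
      norm_num
    · refine le_add_right (ENNReal.ofReal_le_ofReal ?_)
      have : (100 : ℝ) ≤ tot cc a x := le_trans (by
        have := card_nsmul_le_sum (range 10000) _ _ fun i _ => ce_ge a (i :: x)
        norm_num at this ⊢; exact this) (tot_high h)
      rw [div_le_div_iff₀ (by linarith) (by norm_num)]
      linarith [ce_le a x]
  · exact zero_le

lemma b_bad (a : List ℕ → ℕ) (x : List ℕ) :
    ∑' y, {y : List ℕ | y.length ≠ x.length + 1 ∧ y.length + 1 ≠ x.length}.indicator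
      (fun y => ENNReal.ofReal (tp cc a x y)) y ≤ 0 := by
  refine (tsum_tp ..).trans ?_
  rw [sum_eq_zero fun i _ => by simp, add_zero, if_neg]
  rintro ⟨h1, -, h2⟩
  cases x <;> simp at h1 h2

noncomputable def g1 (x : List ℕ) (a : List ℕ → ℕ) : ℝ≥0∞ :=
  ∑ i ∈ range 12, ENNReal.ofReal (1 / 12) * (Lo (i :: x)).indicator 1 a

noncomputable def gg (k : ℕ) : ℝ≥0∞ := if k = 10000 then 2⁻¹ else 1

noncomputable def g2 (x : List ℕ) (a : List ℕ → ℕ) : ℝ≥0∞ :=
  ENNReal.ofReal (41 / 1000) + 2 ^ 2500 * ∏ i ∈ range 10000, gg (a (i :: x))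

lemma b_dl {a : List ℕ → ℕ} {x : List ℕ} (h : a x = 11 ∨ a x = 10000) :
    ∑' y, {y : List ℕ | y.length = x.length + 1 ∧ a y = 11}.indicator
      (fun y => ENNReal.ofReal (tp cc a x y)) y ≤ (Lo x).indicator 1 a * g1 x a + g2 x a := by
  classical
  refine (tsum_tp ..).trans ?_
  rw [if_neg (by simp), zero_add]
  rcases h with h | h
  · refine le_add_right ?_
    rw [Set.indicator_of_mem (show a ∈ Lo x from h), Pi.one_apply, one_mul, tot_low h]
    refine (sum_le_sum_of_subset (range_subset_range.2 (show _ ≤ 12 by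
      unfold ch; split_ifs <;> omega))).trans (sum_le_sum fun i _ => ?_)
    by_cases e : a (i :: x) = 11
    · simp only [Lo, ce, cc, e, Set.mem_ofPred_eq, Set.indicator_of_mem]; norm_num
    · simp [e]
  · refine le_add_left ?_
    have t0 : 0 < tot cc a x := lt_of_lt_of_le (sum_pos (fun i _ => lt_of_lt_of_le (by norm_num)
      (ce_ge a _)) (by simp)) (tot_high h)
    obtain ⟨H, hH⟩ : ∃ H, H = ((range 10000).filter fun i => a (i :: x) = 10000).card := ⟨_, rfl⟩
    rcases le_total H 2500 with e | e
    · refine le_add_left (le_trans (b := 1) ?_ ?_)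
      · refine le_trans (sum_le_sum (g := fun i => ENNReal.ofReal (ce cc a (i :: x) / tot cc a x))
          fun i _ => by split_ifs <;> simp) ?_
        have : ∀ v, 0 ≤ ce cc a v := fun v => le_trans (by norm_num) (ce_ge a v)
        rw [← ENNReal.ofReal_sum_of_nonneg fun i _ => div_nonneg (this _) t0.le, ← sum_div,
          ENNReal.ofReal_le_one, div_le_one t0]
        exact le_add_of_nonneg_left (by split_ifs; exacts [le_rfl, this _])
      · simp only [gg]
        rw [prod_ite, prod_const_one, mul_one, prod_const, ← ENNReal.inv_pow, ← div_eq_mul_inv,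
          ENNReal.le_div_iff_mul_le (by simp) (by simp), one_mul, ← hH]
        exact pow_le_pow_right₀ (by norm_num) e
    · refine le_add_right ?_
      have : (2500 : ℝ) ≤ tot cc a x := by
        refine le_trans ?_ (tot_high h)
        refine le_trans (b := (H : ℝ)) (by exact_mod_cast e) ?_
        rw [hH, card_filter, Nat.cast_sum]
        refine sum_le_sum fun i _ => ?_
        split_ifs with e'
        · simp [ce, cc, h, e']
        · simpa using le_trans (by norm_num) (ce_ge a (i :: x))
      refine le_trans (sum_le_card_nsmul _ _ (ENNReal.ofReal (1 / 250000)) fun i _ => ?_) ?_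
      · split_ifs with e'
        · refine ENNReal.ofReal_le_ofReal ?_
          rw [div_le_div_iff₀ t0 (by norm_num), ce, cc, if_neg (by simp [e'.2])]
          linarith
        · exact zero_le
      · rw [card_range, nsmul_eq_mul, ← ENNReal.ofReal_natCast,
          ← ENNReal.ofReal_mul (Nat.cast_nonneg _)]
        refine ENNReal.ofReal_le_ofReal ?_
        have : (ch a x : ℝ) ≤ 10001 := by
          have : ch a x ≤ 10001 := by unfold ch; split_ifs <;> omega
          exact_mod_cast this
        linarith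

noncomputable def pp : Measure ℕ := (2⁻¹ : ℝ≥0∞) • Measure.dirac 11 + (2⁻¹ : ℝ≥0∞) • Measure.dirac 10000

instance : IsProbabilityMeasure pp := ⟨by simp [pp, ENNReal.inv_two_add_inv_two]⟩

noncomputable abbrev mu : Measure (List ℕ → ℕ) := Measure.infinitePi fun _ => pp

lemma m_Lo (x : List ℕ) : MeasurableSet (Lo x) := measurable_pi_apply x (measurableSet_singleton 11)

lemma good : ∀ᵐ a ∂mu, ∀ x, a x = 11 ∨ a x = 10000 := by
  refine ae_all_iff.2 fun x => (measurePreserving_eval_infinitePi (fun _ : List ℕ => pp)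
    x).quasiMeasurePreserving.ae (p := fun k => k = 11 ∨ k = 10000) ?_
  rw [ae_iff]
  simp [pp]

lemma m_g1 (x : List ℕ) : Measurable (g1 x) :=
  Finset.measurable_sum _ fun _ _ => (measurable_one.indicator (m_Lo _)).const_mul _

lemma m_g2 (x : List ℕ) : Measurable (g2 x) :=
  ((Finset.measurable_prod _ fun _ _ => (measurable_from_top (f := gg)).comp
    (measurable_pi_apply _)).const_mul _).const_add _

lemma E_g1 (x : List ℕ) : ∫⁻ a, g1 x a ∂mu = ENNReal.ofReal (1 / 2) := by
  have : ∀ y, mu (Lo y) = ENNReal.ofReal (1 / 2) := fun y => by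
    refine ((measurePreserving_eval_infinitePi (fun _ : List ℕ => pp) y).measure_preimage
      (measurableSet_singleton 11).nullMeasurableSet).trans ?_
    simp [pp]
  unfold g1
  rw [lintegral_finsetSum _ fun _ _ => (measurable_one.indicator (m_Lo _)).const_mul _]
  simp only [lintegral_const_mul _ (measurable_one.indicator (m_Lo _)), lintegral_indicator_one (m_Lo _),
    this, sum_const, card_range, nsmul_eq_mul]
  rw [← ENNReal.ofReal_natCast, ← ENNReal.ofReal_mul (by norm_num), ← ENNReal.ofReal_mul (by norm_num)]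
  norm_num

lemma E_g2 (x : List ℕ) : ∫⁻ a, g2 x a ∂mu ≤ ENNReal.ofReal (6 / 100) := by
  have m : Measurable gg := measurable_from_top
  have e : ∫⁻ a, ∏ i ∈ range 10000, gg (a (i :: x)) ∂mu = ENNReal.ofReal (3 / 4) ^ 10000 := by
    refine (lintegral_prod_eq_prod_lintegral_of_indepFun (range 10000)
      (fun i (a : List ℕ → ℕ) => gg (a (i :: x)))
      ((iIndepFun_infinitePi (P := fun _ : List ℕ => pp) (X := fun _ => gg) fun _ => m).precomp
        (g := fun i : ℕ => i :: x) fun i j e => by simpa using e)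
      fun i => m.comp (measurable_pi_apply _)).trans ?_
    rw [prod_congr rfl (g := fun _ => ENNReal.ofReal (3 / 4)) fun i _ => ?_, prod_const, card_range]
    rw [(measurePreserving_eval_infinitePi (fun _ : List ℕ => pp) (i :: x)).lintegral_comp m]
    simp only [pp, lintegral_add_measure, lintegral_smul_measure, lintegral_dirac, gg, smul_eq_mul]
    rw [← ENNReal.toReal_eq_toReal_iff' (by simp; finiteness) (by simp), ENNReal.toReal_add (by simp)
      (by simp; finiteness)]
    norm_num
  unfold g2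
  rw [lintegral_add_left measurable_const, lintegral_const, measure_univ, mul_one, lintegral_const_mul' _ _
    (by finiteness), e,
    show (10000 : ℕ) = 4 * 2500 from rfl, pow_mul, ← mul_pow, ← ENNReal.ofReal_pow (by norm_num),
    ← ENNReal.ofReal_ofNat 2, ← ENNReal.ofReal_mul (by norm_num), ← ENNReal.ofReal_pow (by norm_num),
    ← ENNReal.ofReal_add (by norm_num) (by positivity)]
  refine ENNReal.ofReal_le_ofReal ?_
  have a : (2 * (3 / 4 : ℝ) ^ 4) ^ 2500 ≤ (2 * (3 / 4 : ℝ) ^ 4) ^ 10 :=
    pow_le_pow_of_le_one (by norm_num) (by norm_num) (by norm_num)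
  have b : (2 * (3 / 4 : ℝ) ^ 4) ^ 10 ≤ 19 / 1000 := by norm_num
  exact (add_le_add le_rfl (a.trans b)).trans (by norm_num)

lemma cyl {S : Set (List ℕ)} {f : (List ℕ → ℕ) → ℝ≥0∞} (hf : Measurable f)
    (h : ∀ a a' : List ℕ → ℕ, (∀ u ∈ S, a u = a' u) → f a = f a') :
    Measurable[cylinderEvents S] f := by
  classical
  have : f = f ∘ fun a u => if u ∈ S then a u else 0 :=
    funext fun a => h _ _ fun u hu => by simp [hu]
  rw [this]
  refine hf.comp (@measurable_pi_lambda _ _ _ (cylinderEvents S) _ _ fun u => ?_)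
  split_ifs with hu
  · exact measurable_cylinderEvent_apply (X := fun _ => ℕ) hu
  · exact measurable_const

lemma split (m : ℕ) {f g : (List ℕ → ℕ) → ℝ≥0∞} (hf : Measurable f) (hg : Measurable g)
    (h1 : ∀ a a' : List ℕ → ℕ, (∀ u : List ℕ, u.length ≤ m → a u = a' u) → f a = f a')
    (h2 : ∀ a a' : List ℕ → ℕ, (∀ u : List ℕ, m < u.length → a u = a' u) → g a = g a') :
    ∫⁻ a, f a * g a ∂mu = (∫⁻ a, f a ∂mu) * ∫⁻ a, g a ∂mu :=
  lintegral_mul_eq_lintegral_mul_lintegral_of_independent_measurableSpace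
    (Mf := cylinderEvents {u : List ℕ | u.length ≤ m})
    (Mg := cylinderEvents {u : List ℕ | m < u.length})
    cylinderEvents_le_pi cylinderEvents_le_pi
    (indep_iSup_of_disjoint (fun i => (measurable_pi_apply i).comap_le)
      (iIndepFun_infinitePi (X := fun _ u => u) fun _ => measurable_id).iIndep
      (Set.disjoint_left.2 fun u a b => absurd (show m < u.length from b) (not_lt.2 a))) (cyl hf h1) (cyl hg h2)

end Pool.Agent.H.MP_8be476_pr
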