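import Mathlib
import Pool.Agent.H.MP_8be476_pr.A

/-! Counting up-steps, records and visits to low vertices. -/

set_option linter.unusedSectionVars false

namespace Pool.Agent.H.MP_8be476_pr

open MeasureTheory ProbabilityTheory Finset Filter Topology
open scoped ENNReal

noncomputable def w (n : ℕ) (γ : ℕ → List ℕ) (a : List ℕ → ℕ) : ℝ≥0∞ :=
  if γ 0 = [] then ∏ i ∈ range n, ENNReal.ofReal (tp cc a (γ i) (γ (i + 1))) else 0

lemma m_w (n γ) : Measurable (w n γ) := by
  unfold w; split_ifs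
  · exact Finset.measurable_prod _ fun _ _ => (m_tp ..).ennreal_ofReal
  · exact measurable_const

variable {Ω : Type} [MeasurableSpace Ω] {P : Measure Ω} [IsProbabilityMeasure P]
  {A : Ω → List ℕ → ℕ} {X : ℕ → Ω → List ℕ}

def S (X : ℕ → Ω → List ℕ) (n : ℕ) (γ : ℕ → List ℕ) : Set Ω := {ω | ∀ i ≤ n, X i ω = γ i}

structure Hyp (P : Measure Ω) (A : Ω → List ℕ → ℕ) (X : ℕ → Ω → List ℕ) : Prop where
  mA : Measurable A
  mX : ∀ n v, MeasurableSet {ω | X n ω = v}
  law : ∀ n γ B, MeasurableSet B → P (A ⁻¹' B ∩ S X n γ) = ∫⁻ a in B, w n γ a ∂mu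

lemma Hyp.step (h : Hyp P A X) (n : ℕ) (γ : ℕ → List ℕ) {C : (List ℕ → ℕ) → Set (List ℕ)}
    (hC : ∀ y, MeasurableSet {a | y ∈ C a}) {b : (List ℕ → ℕ) → ℝ≥0∞}
    (hb : ∀ a, (a (γ n) = 11 ∨ a (γ n) = 10000) →
      ∑' y, (C a).indicator (fun y => ENNReal.ofReal (tp cc a (γ n) y)) y ≤ b a) {E : Set Ω}
    (hE : ∀ ω ∈ E, X n ω = γ n → X (n + 1) ω ∈ C (A ω)) :
    P (S X n γ ∩ E) ≤ ∫⁻ a, w n γ a * b a ∂mu := by
  classical
  have e : ∀ y a, w (n + 1) (Function.update γ (n + 1) y) a =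
      w n γ a * ENNReal.ofReal (tp cc a (γ n) y) := fun y a => by
    unfold w
    rw [Function.update_of_ne (by omega), prod_range_succ, Function.update_self,
      Function.update_of_ne (by omega), prod_congr rfl fun i hi => by
        rw [Function.update_of_ne (by have := mem_range.1 hi; omega),
          Function.update_of_ne (by have := mem_range.1 hi; omega)]]
    split_ifs <;> simp
  calc _ ≤ P (⋃ y, A ⁻¹' {a | y ∈ C a} ∩ S X (n + 1) (Function.update γ (n + 1) y)) := by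
        refine measure_mono fun ω hω => Set.mem_iUnion.2 ⟨X (n + 1) ω, hE ω hω.2 (hω.1 n le_rfl), fun i hi => ?_⟩
        rcases hi.eq_or_lt with rfl | e
        · simp
        · rw [Function.update_of_ne e.ne, hω.1 i (by omega)]
    _ ≤ ∑' y, ∫⁻ a, {a | y ∈ C a}.indicator (w (n + 1) (Function.update γ (n + 1) y)) a ∂mu := by
        refine (measure_iUnion_le _).trans_eq (tsum_congr fun y => ?_)
        rw [h.law _ _ _ (hC y), lintegral_indicator (hC y)]
    _ ≤ _ := by
        rw [← lintegral_tsum fun y => ((m_w ..).indicator (hC y)).aemeasurable]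
        refine lintegral_mono_ae (good.mono fun a ha => ?_)
        refine le_trans (le_of_eq ?_) (mul_le_mul_right (hb a (ha _)) _)
        rw [← ENNReal.tsum_mul_left]
        refine tsum_congr fun y => ?_
        by_cases e' : y ∈ C a <;> simp [e', e]

lemma Hyp.mS (h : Hyp P A X) (n γ) : MeasurableSet (S X n γ) := by
  simp only [S, Set.ofPred_forall]
  exact .iInter fun i => .iInter fun _ => h.mX i _

lemma Hyp.part (h : Hyp P A X) (n : ℕ) {E : Set Ω} (hE : MeasurableSet E) :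
    P E = ∑' g : Fin (n + 1) → List ℕ, P (S X n (fun i => g ⟨min i n, by omega⟩) ∩ E) := by
  rw [← measure_iUnion _ fun _ => (h.mS ..).inter hE]
  · congr 1
    ext ω
    simp only [Set.mem_iUnion]
    exact ⟨fun a => ⟨fun i => X i ω, fun i hi => by simp [hi], a⟩, fun ⟨_, a⟩ => a.2⟩
  · intro g g' e
    refine Set.disjoint_left.2 fun ω a b => e (funext fun i => ?_)
    have := (a.1 i (by omega)).symm.trans (b.1 i (by omega))
    simpa [min_eq_left (Nat.lt_succ_iff.1 i.2)] using this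

lemma Hyp.cmp (h : Hyp P A X) (n : ℕ) {E E1 E2 : Set Ω} (hE : MeasurableSet E)
    (h1 : MeasurableSet E1) (h2 : MeasurableSet E2) {c0 c1 : ℝ} (p0 : 0 ≤ c0) (p1 : 0 ≤ c1)
    (H : ∀ γ, P (S X n γ ∩ E) ≤ ENNReal.ofReal c0 * P (S X n γ ∩ Set.univ) +
      ENNReal.ofReal c1 * P (S X n γ ∩ E1) + P (S X n γ ∩ E2)) :
    P.real E ≤ c0 + c1 * P.real E1 + P.real E2 := by
  have : P E ≤ ENNReal.ofReal c0 * P Set.univ + ENNReal.ofReal c1 * P E1 + P E2 := by
    rw [h.part n hE, h.part n h1, h.part n h2, h.part n .univ, ← ENNReal.tsum_mul_left,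
      ← ENNReal.tsum_mul_left, ← ENNReal.tsum_add, ← ENNReal.tsum_add]
    exact ENNReal.tsum_le_tsum fun g => H _
  refine (ENNReal.toReal_mono (by finiteness) this).trans_eq ?_
  rw [ENNReal.toReal_add (by finiteness) (by finiteness), ENNReal.toReal_add (by finiteness)
    (by finiteness)]
  simp [p0, p1, Measure.real]

lemma Hyp.ms (h : Hyp P A X) (n m : ℕ) {Q : List ℕ → List ℕ → Set (List ℕ → ℕ)}
    (hQ : ∀ x y, MeasurableSet (Q x y)) : MeasurableSet {ω | A ω ∈ Q (X n ω) (X m ω)} := by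
  have : {ω | A ω ∈ Q (X n ω) (X m ω)} =
      ⋃ x, ⋃ y, {ω | X n ω = x} ∩ ({ω | X m ω = y} ∩ A ⁻¹' Q x y) := by ext; simp
  rw [this]
  exact .iUnion fun x => .iUnion fun y => (h.mX ..).inter ((h.mX ..).inter (h.mA (hQ x y)))

def Up (X : ℕ → Ω → List ℕ) (n : ℕ) : Set Ω := {ω | (X (n + 1) ω).length ≠ (X n ω).length + 1}
def LL (A : Ω → List ℕ → ℕ) (X : ℕ → Ω → List ℕ) (n : ℕ) : Set Ω := {ω | A ω ∈ Lo (X n ω)}
def DL (A : Ω → List ℕ → ℕ) (X : ℕ → Ω → List ℕ) (n : ℕ) : Set Ω :=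
  {ω | (X (n + 1) ω).length = (X n ω).length + 1 ∧ A ω ∈ Lo (X (n + 1) ω)}
def NR (X : ℕ → Ω → List ℕ) (n : ℕ) : Set Ω := {ω | ∃ i < n, (X n ω).length ≤ (X i ω).length}

lemma Hyp.mUp (h : Hyp P A X) (n : ℕ) : MeasurableSet (Up X n) :=
  h.ms n (n + 1) (Q := fun x y => {_a | y.length ≠ x.length + 1}) fun _ _ => .const _
lemma Hyp.mLL (h : Hyp P A X) (n : ℕ) : MeasurableSet (LL A X n) :=
  h.ms n n (Q := fun x _ => Lo x) fun _ _ => m_Lo _
lemma Hyp.mDL (h : Hyp P A X) (n : ℕ) : MeasurableSet (DL A X n) :=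
  h.ms n (n + 1) (Q := fun x y => {a | y.length = x.length + 1 ∧ a ∈ Lo y})
    fun _ _ => (MeasurableSet.const _).inter (m_Lo _)
lemma Hyp.mNR (h : Hyp P A X) (n : ℕ) : MeasurableSet (NR X n) := by
  simp only [NR, Set.ofPred_exists]
  exact .iUnion fun i => h.ms n i (Q := fun x y => {_a | i < n ∧ x.length ≤ y.length})
    fun _ _ => .const _

lemma Hyp.l0 (h : Hyp P A X) (n γ) : P (S X n γ ∩ Set.univ) = ∫⁻ a, w n γ a ∂mu := by
  simpa using h.law n γ _ .univ

lemma Hyp.l1 (h : Hyp P A X) (n γ) :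
    P (S X n γ ∩ LL A X n) = ∫⁻ a, w n γ a * (Lo (γ n)).indicator 1 a ∂mu := by
  have : S X n γ ∩ LL A X n = A ⁻¹' Lo (γ n) ∩ S X n γ := by
    ext ω
    exact ⟨fun a => ⟨by simpa [LL, a.1 n le_rfl] using a.2, a.1⟩, fun a => ⟨a.2, by
      simpa [LL, a.2 n le_rfl] using a.1⟩⟩
  rw [this, h.law _ _ _ (m_Lo _), ← lintegral_indicator (m_Lo _)]
  exact lintegral_congr fun a => by by_cases e : a ∈ Lo (γ n) <;> simp [e]

lemma Hyp.up (h : Hyp P A X) (n : ℕ) : P.real (Up X n) ≤ 1 / 100 + 1 / 12 * P.real (LL A X n) := by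
  have := h.cmp n (h.mUp n) (h.mLL n) .empty (c0 := 1 / 100) (c1 := 1 / 12) (by norm_num)
    (by norm_num) fun γ => ?_
  · simpa using this
  refine le_trans (h.step n γ
    (C := fun _ => {y | y.length ≠ (γ n).length + 1}) (fun _ => .const _)
    (fun a ha => b_up ha) fun ω a e => ?_) (le_add_right (le_of_eq ?_))
  · rw [← e]; exact a
  · simp only [mul_add, mul_left_comm (w n γ _), mul_comm (w n γ _) (ENNReal.ofReal _)]
    rw [lintegral_add_left ((m_w ..).const_mul _), lintegral_const_mul' _ _ (by simp),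
      lintegral_const_mul' _ _ (by simp), h.l0, h.l1]

lemma Hyp.dl (h : Hyp P A X) (n : ℕ) :
    P.real (DL A X n) ≤ 6 / 100 + 1 / 2 * P.real (LL A X n) + P.real (NR X n) := by
  refine h.cmp n (h.mDL n) (h.mLL n) (h.mNR n) (by norm_num) (by norm_num) fun γ => ?_
  by_cases r : ∃ i < n, (γ n).length ≤ (γ i).length
  · obtain ⟨i, hi, r⟩ := r
    exact le_add_left (measure_mono fun ω a => ⟨a.1, i, hi, by rwa [a.1 n le_rfl, a.1 i hi.le]⟩)
  push Not at r
  have dw : ∀ a a' : List ℕ → ℕ, (∀ u : List ℕ, u.length ≤ (γ n).length → a u = a' u) →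
      w n γ a = w n γ a' := fun a a' e => by
    unfold w
    rw [prod_congr rfl fun i hi => by
      rw [tp_dep cc _ _ fun u hu => e u (hu.trans (r i (mem_range.1 hi)))]]
  refine le_trans (h.step n γ
    (C := fun a => {y | y.length = (γ n).length + 1 ∧ a y = 11})
    (fun _ => (MeasurableSet.const _).inter (m_Lo _)) (fun a ha => b_dl ha) fun ω a e => ?_)
    (le_add_right ?_)
  · rw [← e]; exact a
  · simp only [mul_add, ← mul_assoc]
    have m1 : Measurable fun a => w n γ a * (Lo (γ n)).indicator 1 a :=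
      (m_w n γ).mul (measurable_one.indicator (m_Lo (γ n)))
    rw [lintegral_add_left (m1.fun_mul (m_g1 _)), split _ m1 (m_g1 _) (fun a a' e => by
        rw [dw a a' e]; simp only [Lo, Set.indicator, Set.mem_ofPred_eq, e _ le_rfl, Pi.one_apply])
      (fun a a' e => sum_congr rfl fun i _ => by
        simp only [Lo, Set.indicator, Set.mem_ofPred_eq, e (i :: γ n) (by simp), Pi.one_apply]),
      split _ (m_w ..) (m_g2 _) dw fun a a' e => by
        rw [g2, g2, prod_congr rfl fun i _ => by rw [e (i :: γ n) (by simp)]],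
      E_g1, h.l0, h.l1, add_comm, mul_comm, mul_comm _ (ENNReal.ofReal _)]
    exact add_le_add (mul_le_mul_left (E_g2 _) _) le_rfl

lemma Hyp.ok (h : Hyp P A X) : ∀ᵐ ω ∂P, X 0 ω = [] ∧ ∀ n,
    (X (n + 1) ω).length = (X n ω).length + 1 ∨ (X (n + 1) ω).length + 1 = (X n ω).length := by
  refine Eventually.and ?_ (ae_all_iff.2 fun n => ?_)
  · rw [ae_iff]
    refine measure_mono_null (t := ⋃ y : {y : List ℕ // y ≠ []}, A ⁻¹' Set.univ ∩ S X 0 fun _ => y)
      (fun ω a => Set.mem_iUnion.2 ⟨⟨_, a⟩, trivial, fun i hi => by simp_all⟩)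
      (measure_iUnion_null fun y => ?_)
    rw [h.law _ _ _ .univ]
    simp [w, y.2]
  · rw [ae_iff]
    simp only [not_or]
    refine (h.part n (h.ms n (n + 1) (Q := fun x y => {_a | ¬ y.length = x.length + 1 ∧
      ¬ y.length + 1 = x.length}) fun _ _ => .const _)).trans (ENNReal.tsum_eq_zero.2 fun g => ?_)
    generalize (fun i => g ⟨min i n, by omega⟩) = γ
    refine le_zero_iff.1 (le_trans (h.step n γ
      (C := fun _ => {y | y.length ≠ (γ n).length + 1 ∧ y.length + 1 ≠ (γ n).length})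
      (fun _ => .const _) (fun a _ => b_bad a _) fun ω a e => ?_) (by simp))
    rw [← e]; exact a

lemma path (D : ℕ → ℕ) (h0 : D 0 = 0) (h : ∀ n, D (n + 1) = D n + 1 ∨ D (n + 1) + 1 = D n) :
    (∀ n, D n ≤ n ∧ n ≤ D n + 2 * ∑ i ∈ range n, if D (i + 1) ≠ D i + 1 then 1 else 0) ∧
    ∀ n, ∀ i < n, D i + 1 + ∑ j ∈ range n, (if ∃ k < j, D j ≤ D k then 1 else 0) ≤ n := by
  refine ⟨fun n => ?_, fun n => ?_⟩
  · induction n with
    | zero => simp [h0]
    | succ n ih => rw [sum_range_succ]; have := h n; split_ifs <;> omega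
  · induction n with
    | zero => simp
    | succ n ih =>
      intro i hi
      rw [sum_range_succ]
      rcases (Nat.lt_succ_iff.1 hi).eq_or_lt with rfl | e
      · split_ifs with e
        · obtain ⟨k, hk, e⟩ := e
          have := ih k hk; omega
        · cases i with
          | zero => simp [h0]
          | succ i => have := ih i (by omega); have := h i; omega
      · have := ih i e; split_ifs <;> omega

lemma Hyp.mD (h : Hyp P A X) (n : ℕ) : Measurable fun ω => ((X n ω).length : ℝ) := by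
  let _ : MeasurableSpace (List ℕ) := ⊤
  exact (measurable_from_top (f := fun x : List ℕ => (x.length : ℝ))).comp
    (measurable_to_countable' fun x => h.mX n x)

lemma Hyp.mean (h : Hyp P A X) (n : ℕ) : 92 / 100 * n - 1 ≤ ∫ ω, ((X n ω).length : ℝ) ∂P := by
  classical
  have ok := h.ok.mono fun ω a => path (fun n => (X n ω).length) (by simp [a.1]) a.2
  have I : ∀ {E : ℕ → Set Ω}, (∀ i, MeasurableSet (E i)) →
      Integrable (fun ω => ∑ i ∈ range n, (E i).indicator (1 : Ω → ℝ) ω) P ∧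
      ∫ ω, ∑ i ∈ range n, (E i).indicator (1 : Ω → ℝ) ω ∂P = ∑ i ∈ range n, P.real (E i) :=
    fun hE => ⟨integrable_finsetSum _ fun i _ => (integrable_const _).indicator (hE i), by
      rw [integral_finsetSum _ fun i _ => (integrable_const _).indicator (hE i)]
      exact sum_congr rfl fun i _ => integral_indicator_one (hE i)⟩
  have eU : ∀ ω m, ((∑ i ∈ range m, if (X (i + 1) ω).length ≠ (X i ω).length + 1 then 1 else 0 : ℕ)
      : ℝ) = ∑ i ∈ range m, (Up X i).indicator (1 : Ω → ℝ) ω := fun ω m => by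
    simp [Set.indicator, Up]
  have a1 : (n : ℝ) ≤ ∫ ω, ((X n ω).length : ℝ) ∂P + 2 * ∑ i ∈ range n, P.real (Up X i) := by
    have iD : Integrable (fun ω => ((X n ω).length : ℝ)) P := .of_bound (h.mD n).aestronglyMeasurable
      n (ok.mono fun ω a => by simpa using (a.1 n).1)
    rw [← (I h.mUp).2, ← integral_const_mul, ← integral_add iD ((I h.mUp).1.const_mul _)]
    refine le_trans (by simp) (integral_mono_ae (integrable_const (n : ℝ))
      (iD.add ((I h.mUp).1.const_mul _)) (ok.mono fun ω a => ?_))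
    simp only [← eU]
    exact_mod_cast (a.1 n).2
  have a2 : ∑ i ∈ range n, P.real (NR X i) ≤ 2 * ∑ i ∈ range n, P.real (Up X i) := by
    rw [← (I h.mUp).2, ← (I h.mNR).2, ← integral_const_mul]
    refine integral_mono_ae (I h.mNR).1 ((I h.mUp).1.const_mul _) (ok.mono fun ω a => ?_)
    have e : ((∑ j ∈ range n, if ∃ k < j, (X j ω).length ≤ (X k ω).length then 1 else 0 : ℕ) : ℝ) =
        ∑ i ∈ range n, (NR X i).indicator (1 : Ω → ℝ) ω := by simp [Set.indicator, NR]
    simp only [← eU, ← e]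
    norm_cast
    cases n with
    | zero => simp
    | succ n =>
      have := a.2 (n + 1) n (by omega)
      have := (a.1 n).2
      rw [sum_range_succ (fun i => if (X (i + 1) ω).length ≠ (X i ω).length + 1 then 1 else 0)]
      omega
  have a3 : ∑ i ∈ range (n + 1), P.real (LL A X i) ≤
      ∑ i ∈ range n, (P.real (DL A X i) + P.real (Up X i)) + 1 := by
    rw [sum_range_succ']
    refine add_le_add (sum_le_sum fun i _ => le_trans (measureReal_mono fun ω a => ?_)
      (measureReal_union_le _ _)) measureReal_le_one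
    by_cases e : ω ∈ Up X i
    · exact .inr e
    · exact .inl ⟨not_not.1 e, a⟩
  have a4 := sum_le_sum fun i (_ : i ∈ range n) => h.up i
  have a5 := sum_le_sum fun i (_ : i ∈ range n) => h.dl i
  have a6 : 0 ≤ P.real (LL A X n) := measureReal_nonneg
  simp only [sum_add_distrib, sum_const, card_range, nsmul_eq_mul, ← mul_sum, sum_range_succ] at *
  linarith

lemma Hyp.lim (h : Hyp P A X) {v : ℝ}
    (hv : ∀ᵐ ω ∂P, Tendsto (fun n => ((X n ω).length : ℝ) / n) atTop (𝓝 v)) : 92 / 100 ≤ v := by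
  have ok := h.ok.mono fun ω a => path (fun n => (X n ω).length) (by simp [a.1]) a.2
  have t := tendsto_integral_of_dominated_convergence (μ := P) (fun _ => (1 : ℝ))
    (F := fun n ω => ((X n ω).length : ℝ) / n) (f := fun _ => v)
    (fun n => ((h.mD n).div_const _).aestronglyMeasurable) (integrable_const _)
    (fun n => ok.mono fun ω a => by
      rw [Real.norm_of_nonneg (by positivity)]
      exact div_le_one_of_le₀ (by exact_mod_cast (a.1 n).1) (by positivity)) hv
  have t2 : Tendsto (fun n : ℕ => 92 / 100 - 1 / (n : ℝ)) atTop (𝓝 (92 / 100 - 0)) :=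
    tendsto_const_nhds.sub tendsto_one_div_atTop_nhds_zero_nat
  simp only [integral_const, probReal_univ, one_smul, sub_zero] at t t2
  refine le_of_tendsto_of_tendsto t2 t ((eventually_gt_atTop 0).mono fun n hn => ?_)
  have : (0 : ℝ) < n := by exact_mod_cast hn
  simp only [integral_div]
  rw [le_div_iff₀ this, sub_mul, one_div_mul_cancel this.ne']
  exact h.mean n

theorem main : ∃ (p : Measure ℕ) (_ : IsProbabilityMeasure p) (c : ℕ → ℕ → ℝ) (s : ℝ),
    p {0} = 0 ∧ p {1} < 1 ∧ (∀ k m, 0 < c k m ∧ c k m ≤ 1 ∧ c k m = c m k) ∧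
    (∃ k m, p {k} ≠ 0 ∧ p {m} ≠ 0 ∧ c k k ≠ c k m) ∧
    ∑' k : ℕ, p.real {k} * (((k : ℝ) - 1) / (k + 1)) < s ∧
    ∀ (Ω : Type) [MeasurableSpace Ω] (P : Measure Ω) [IsProbabilityMeasure P]
      (A : Ω → List ℕ → ℕ) (X : ℕ → Ω → List ℕ), Measurable A →
      (∀ n v, MeasurableSet {ω | X n ω = v}) →
      (∀ n (γ : ℕ → List ℕ) B, MeasurableSet B → P (A ⁻¹' B ∩ {ω | ∀ i ≤ n, X i ω = γ i}) =
        ∫⁻ a in B, (if γ 0 = [] then ∏ i ∈ range n, ENNReal.ofReal (tp c a (γ i) (γ (i + 1))) else 0)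
          ∂Measure.infinitePi fun _ => p) →
      (∀ n : ℕ, s * n - 1 ≤ ∫ ω, ((X n ω).length : ℝ) ∂P) ∧
      ∀ v : ℝ, (∀ᵐ ω ∂P, Tendsto (fun n => ((X n ω).length : ℝ) / n) atTop (𝓝 v)) → s ≤ v := by
  refine ⟨pp, inferInstance, cc, 92 / 100, by simp [pp], by simp [pp], fun k m => ?_,
    ⟨10000, 11, by simp [pp], by simp [pp], by norm_num [cc]⟩, ?_,
    fun Ω _ P _ A X h1 h2 h3 => ⟨Hyp.mean ⟨h1, h2, h3⟩, fun v => Hyp.lim ⟨h1, h2, h3⟩⟩⟩
  · simp only [cc, and_comm (a := m = 10000)]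
    split_ifs <;> norm_num
  · rw [tsum_eq_sum (s := {11, 10000}) fun k hk => by
      simp only [mem_insert, mem_singleton, not_or] at hk
      simp [pp, Measure.real, Ne.symm hk.1, Ne.symm hk.2]]
    simp [pp, Measure.real]
    norm_num

end Pool.Agent.H.MP_8be476_pr
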